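import Pool.Agent.K1H45.Q3.Nrm

/-!
# Piece `S_DSC`: the discriminant of `k(√α)`
-/

set_option autoImplicit false

namespace Pool.Agent.K1H45.Q3

open Finset NumberField Pool.Agent.K1H79.Q3
open scoped nonZeroDivisors

lemma algTrace (a : E) : Algebra.trace ℤ E a = 2 * a.re - a.im := by
  classical
  rw [Algebra.trace_eq_matrix_trace (QuadraticAlgebra.basis (-1 : ℤ) (-1)), Matrix.trace,
    Fin.sum_univ_two]
  simp only [Matrix.diag_apply, Algebra.leftMulMatrix_eq_repr_mul]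
  have b0 : QuadraticAlgebra.basis (-1 : ℤ) (-1) 0 = ⟨1, 0⟩ := by
    rw [QuadraticAlgebra.basis, Module.Basis.coe_ofEquivFun]
    simp
  have b1 : QuadraticAlgebra.basis (-1 : ℤ) (-1) 1 = ⟨0, 1⟩ := by
    rw [QuadraticAlgebra.basis, Module.Basis.coe_ofEquivFun]
    simp
  rw [b0, b1]
  simp
  ring

variable {L : Type} [Field L] [NumberField L]

theorem trace_om (d : Dat L) (a : E) :
    Algebra.trace ℤ (𝓞 L) (d.om a) = 4 * a.re - 2 * a.im := by
  let _ : Algebra E (𝓞 L) := d.om.toAlgebra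
  have hst : IsScalarTower ℤ E (𝓞 L) := inferInstance
  have hfin : Module.Finite E (𝓞 L) := Module.Finite.of_restrictScalars_finite ℤ E (𝓞 L)
  have htf : Module.IsTorsionFree E (𝓞 L) :=
    Module.isTorsionFree_iff_algebraMap_injective.mpr (om_inj d)
  have hfree : Module.Free E (𝓞 L) := inferInstance
  have hrank : Module.finrank E (𝓞 L) = 2 := by
    have h1 := Module.finrank_mul_finrank ℤ E (𝓞 L)
    rw [QuadraticAlgebra.finrank_eq_two, RingOfIntegers.rank, d.deg] at h1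
    omega
  have h2 : Algebra.trace ℤ (𝓞 L) (d.om a) =
      Algebra.trace ℤ E (Algebra.trace E (𝓞 L) (d.om a)) :=
    (Algebra.trace_trace (R := ℤ) (S := E) (T := 𝓞 L) (d.om a)).symm
  have h3 : Algebra.trace E (𝓞 L) (d.om a) = 2 • a := by
    have := Algebra.trace_algebraMap (R := E) (S := 𝓞 L) a
    rw [hrank] at this
    exact this
  rw [h2, h3, map_nsmul, algTrace]
  ring

theorem trace_om_s (d : Dat L) (a : E) : Algebra.trace ℤ (𝓞 L) (d.om a * d.s) = 0 := by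
  let e : 𝓞 L ≃ₐ[ℤ] 𝓞 L := AlgEquiv.ofRingEquiv (f := d.sg) (by intro r; simp)
  have h1 := Algebra.trace_eq_of_algEquiv e (d.om a * d.s)
  have h2 : e (d.om a * d.s) = -(d.om a * d.s) := by
    change d.sg (d.om a * d.s) = _
    rw [map_mul, sg_om, sg_s]; ring
  rw [h2, map_neg] at h1
  linarith

lemma s_ne (d : Dat L) : d.s ≠ 0 := by
  intro h
  have h1 := d.sq
  rw [h] at h1
  have h2 : d.om d.α = d.om 0 := by rw [← h1, map_zero]; ring
  exact d.sqf.ne_zero (om_inj d h2)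

/-- `2 O_L ⊆ E + E s` -/
lemma two_mul_mem (d : Dat L) (x : 𝓞 L) : ∃ u v : E, 2 * x = d.om u + d.om v * d.s := by
  obtain ⟨u, hu⟩ := inv_mem d (x + d.sg x) (by rw [map_add, sg_sg, add_comm])
  obtain ⟨c, hc⟩ := inv_mem d ((x - d.sg x) * d.s) (by
    rw [map_mul, map_sub, sg_sg, sg_s]; ring)
  obtain ⟨e, he⟩ := inv_mem d ((x - d.sg x) ^ 2) (by
    rw [map_pow, map_sub, sg_sg]; ring)
  have h1 : c ^ 2 = e * d.α := by
    apply om_inj d
    rw [map_pow, map_mul, hc, he, ← d.sq]; ring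
  have h2 : d.α ∣ c := by
    rw [← d.sqf.dvd_pow_iff_dvd two_ne_zero, h1]
    exact dvd_mul_left _ _
  obtain ⟨v, rfl⟩ := h2
  refine ⟨u, v, ?_⟩
  have h3 : x - d.sg x = d.om v * d.s := by
    apply mul_right_cancel₀ (s_ne d)
    rw [← hc, map_mul, ← d.sq]; ring
  rw [hu, ← h3]; ring

/-- the vector `1, ω, s, ω s` -/
noncomputable def vv (d : Dat L) : Fin 4 → 𝓞 L := ![1, d.om ⟨0, 1⟩, d.s, d.om ⟨0, 1⟩ * d.s]

lemma om_eq (d : Dat L) (a : E) : d.om a = (a.re : 𝓞 L) + (a.im : 𝓞 L) * d.om ⟨0, 1⟩ := by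
  have h : a = (a.re : E) + (a.im : E) * ⟨0, 1⟩ := by
    ext <;> simp
  conv_lhs => rw [h]
  rw [map_add, map_mul, map_intCast, map_intCast]

theorem discr_vv (d : Dat L) : Algebra.discr ℤ (vv d) = 144 * (nm d.α : ℤ) := by
  have hM : Algebra.traceMatrix ℤ (vv d) =
      !![4, -2, 0, 0; -2, -2, 0, 0; 0, 0, 4 * d.α.re - 2 * d.α.im, -2 * d.α.re - 2 * d.α.im;
        0, 0, -2 * d.α.re - 2 * d.α.im, 4 * d.α.im - 2 * d.α.re] := by
    have t0 : Algebra.trace ℤ (𝓞 L) 1 = 4 := by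
      have h := trace_om d 1
      rw [map_one d.om] at h
      rw [h]; rfl
    have t1 : Algebra.trace ℤ (𝓞 L) (d.om ⟨0, 1⟩) = -2 := by
      rw [trace_om d]; simp
    have t2 : Algebra.trace ℤ (𝓞 L) (d.om ⟨0, 1⟩ * d.om ⟨0, 1⟩) = -2 := by
      rw [← map_mul d.om, trace_om d]; simp
    have t3 : Algebra.trace ℤ (𝓞 L) (d.om d.α) = 4 * d.α.re - 2 * d.α.im := trace_om d d.α
    have t4 : Algebra.trace ℤ (𝓞 L) (d.om d.α * d.om ⟨0, 1⟩) = -2 * d.α.re - 2 * d.α.im := by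
      rw [← map_mul d.om, trace_om d]; simp; ring
    have t5 : Algebra.trace ℤ (𝓞 L) (d.om d.α * (d.om ⟨0, 1⟩ * d.om ⟨0, 1⟩)) =
        4 * d.α.im - 2 * d.α.re := by
      rw [← map_mul d.om, ← map_mul d.om, trace_om d]; simp; ring
    have u0 : Algebra.trace ℤ (𝓞 L) d.s = 0 := by
      have h := trace_om_s d 1
      rwa [map_one d.om, one_mul] at h
    have u1 : Algebra.trace ℤ (𝓞 L) (d.om ⟨0, 1⟩ * d.s) = 0 := trace_om_s d _
    have u2 : Algebra.trace ℤ (𝓞 L) (d.om ⟨0, 1⟩ * d.om ⟨0, 1⟩ * d.s) = 0 := by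
      rw [← map_mul d.om]; exact trace_om_s d _
    have e1 : d.om ⟨0, 1⟩ * (d.om ⟨0, 1⟩ * d.s) = d.om ⟨0, 1⟩ * d.om ⟨0, 1⟩ * d.s := by ring
    have e2 : d.s * d.om ⟨0, 1⟩ = d.om ⟨0, 1⟩ * d.s := by ring
    have e3 : d.s * d.s = d.om d.α := by rw [← d.sq]; ring
    have e4 : d.s * (d.om ⟨0, 1⟩ * d.s) = d.om d.α * d.om ⟨0, 1⟩ := by rw [← d.sq]; ring
    have e5 : d.om ⟨0, 1⟩ * d.s * d.om ⟨0, 1⟩ = d.om ⟨0, 1⟩ * d.om ⟨0, 1⟩ * d.s := by ring
    have e6 : d.om ⟨0, 1⟩ * d.s * d.s = d.om d.α * d.om ⟨0, 1⟩ := by rw [← d.sq]; ring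
    have e7 : d.om ⟨0, 1⟩ * d.s * (d.om ⟨0, 1⟩ * d.s) =
        d.om d.α * (d.om ⟨0, 1⟩ * d.om ⟨0, 1⟩) := by rw [← d.sq]; ring
    ext i j
    rw [Algebra.traceMatrix_apply, Algebra.traceForm_apply]
    fin_cases i <;> fin_cases j <;>
      simp [vv, e1, e2, e3, e4, e5, e6, e7, t0, t1, t2, t3, t4, t5, u0, u1, u2]
  rw [Algebra.discr_def, hM, nm_cast]
  have f1 : Fin.succAbove (1 : Fin 4) (2 : Fin 3) = 3 := rfl
  simp [Matrix.det_succ_row_zero, Fin.sum_univ_succ, f1]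
  ring

/-- **Q13** -/
theorem t_DSC : S_DSC := by
  refine ⟨144, by norm_num, ?_⟩
  intro L _ _ d
  let b : Module.Basis (Fin 4) ℤ (𝓞 L) :=
    Module.finBasisOfFinrankEq ℤ (𝓞 L) (by rw [RingOfIntegers.rank, d.deg])
  have hb : Algebra.discr ℤ b = discr L := discr_eq_discr L b
  have hdisc := discr_vv d
  -- `v = b M`
  let M : Matrix (Fin 4) (Fin 4) ℤ := fun i j => b.repr (vv d j) i
  have hM : vv d = Matrix.vecMul b (M.map (algebraMap ℤ (𝓞 L))) := by
    funext j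
    rw [Matrix.vecMul, dotProduct]
    conv_lhs => rw [← b.sum_repr (vv d j)]
    apply sum_congr rfl
    intro i _
    rw [Matrix.map_apply, mul_comm, ← Algebra.smul_def]
  have h1 : 144 * (nm d.α : ℤ) = M.det ^ 2 * discr L := by
    rw [← hdisc, ← hb]
    conv_lhs => rw [hM]
    exact Algebra.discr_of_matrix_vecMul (b : Fin 4 → 𝓞 L) M
  -- `2 b = v N`
  have hex : ∀ j, ∃ u v : E, 2 * b j = d.om u + d.om v * d.s := fun j => two_mul_mem d (b j)
  choose u v huv using hex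
  let N : Matrix (Fin 4) (Fin 4) ℤ := fun i j => ![(u j).re, (u j).im, (v j).re, (v j).im] i
  have hN : (fun j => 2 * b j) = Matrix.vecMul (vv d) (N.map (algebraMap ℤ (𝓞 L))) := by
    funext j
    have e : ∀ i j, (N.map (algebraMap ℤ (𝓞 L))) i j = ((N i j : ℤ) : 𝓞 L) := fun _ _ => rfl
    rw [Matrix.vecMul, dotProduct, Fin.sum_univ_four, huv j, om_eq d (u j), om_eq d (v j),
      e, e, e, e]
    have n0 : N 0 j = (u j).re := rfl
    have n1 : N 1 j = (u j).im := rfl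
    have n2 : N 2 j = (v j).re := rfl
    have n3 : N 3 j = (v j).im := rfl
    have v0 : vv d 0 = 1 := rfl
    have v1 : vv d 1 = d.om ⟨0, 1⟩ := rfl
    have v2 : vv d 2 = d.s := rfl
    have v3 : vv d 3 = d.om ⟨0, 1⟩ * d.s := rfl
    rw [n0, n1, n2, n3, v0, v1, v2, v3]
    ring
  have hP : (fun j => 2 * b j) =
      Matrix.vecMul b ((Matrix.diagonal (fun _ : Fin 4 => (2 : ℤ))).map
        (algebraMap ℤ (𝓞 L))) := by
    funext j
    have e : ∀ i j, ((Matrix.diagonal (fun _ : Fin 4 => (2 : ℤ))).map (algebraMap ℤ (𝓞 L))) i j =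
      ((Matrix.diagonal (fun _ : Fin 4 => (2 : ℤ)) i j : ℤ) : 𝓞 L) := fun _ _ => rfl
    rw [Matrix.vecMul, dotProduct, Finset.sum_eq_single j]
    · rw [e, Matrix.diagonal_apply_eq]; push_cast; ring
    · intro i _ hij
      rw [e, Matrix.diagonal_apply_ne _ hij]; simp
    · intro h; exact absurd (mem_univ _) h
  have h2 : N.det ^ 2 * (144 * (nm d.α : ℤ)) = 256 * discr L := by
    have h3 := Algebra.discr_of_matrix_vecMul (vv d) N
    have h4 := Algebra.discr_of_matrix_vecMul (b : Fin 4 → 𝓞 L)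
      (Matrix.diagonal (fun _ : Fin 4 => (2 : ℤ)))
    rw [← hN] at h3
    rw [← hP] at h4
    rw [h3, hdisc, hb, Matrix.det_diagonal] at h4
    rw [h4]
    norm_num
  have hd0 : discr L ≠ 0 := discr_ne_zero L
  have hnm : (0 : ℤ) < 144 * (nm d.α : ℤ) := by
    have := nm_pos d.sqf.ne_zero
    positivity
  have hN0 : N.det ^ 2 ≠ 0 := by
    intro h
    rw [h, zero_mul] at h2
    have : discr L = 0 := by omega
    exact hd0 this
  have hM0 : M.det ^ 2 ≠ 0 := by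
    intro h
    rw [h, zero_mul] at h1
    omega
  have hN1 : 1 ≤ N.det ^ 2 := by
    have := sq_nonneg N.det
    omega
  have hM1 : 1 ≤ M.det ^ 2 := by
    have := sq_nonneg M.det
    omega
  have hdpos : 0 < discr L := by
    by_contra hcon
    push Not at hcon
    nlinarith
  have k1 : (nm d.α : ℤ) ≤ 144 * discr L := by nlinarith
  have k2 : discr L ≤ 144 * (nm d.α : ℤ) := by nlinarith
  have k0 : |(discr L : ℝ)| = (discr L : ℝ) := abs_of_pos (by exact_mod_cast hdpos)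
  rw [k0]
  constructor
  · exact_mod_cast k1
  · exact_mod_cast k2

end Pool.Agent.K1H45.Q3
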