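import Pool.Agent.K1H79.Q3.StmB

/-!
# Piece `S_NRM`: the relative norm of an ideal is principal
-/

set_option autoImplicit false

namespace Pool.Agent.K1H45.Q3

open Finset NumberField Pool.Agent.K1H79.Q3
open scoped nonZeroDivisors

lemma algNorm (a : E) : Algebra.norm ℤ a = QuadraticAlgebra.norm a := by
  classical
  rw [Algebra.norm_eq_matrix_det (QuadraticAlgebra.basis (-1 : ℤ) (-1)), Matrix.det_fin_two]
  simp only [Algebra.leftMulMatrix_eq_repr_mul]
  have b0 : QuadraticAlgebra.basis (-1 : ℤ) (-1) 0 = ⟨1, 0⟩ := by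
    rw [QuadraticAlgebra.basis, Module.Basis.coe_ofEquivFun]
    simp
  have b1 : QuadraticAlgebra.basis (-1 : ℤ) (-1) 1 = ⟨0, 1⟩ := by
    rw [QuadraticAlgebra.basis, Module.Basis.coe_ofEquivFun]
    simp
  rw [b0, b1, norm_eq]
  simp
  ring

variable {L : Type} [Field L] [NumberField L]

lemma om_inj (d : Dat L) : Function.Injective d.om := by
  rw [injective_iff_map_eq_zero]
  intro z hz
  by_contra h
  have h1 : d.om (z * star z) = 0 := by rw [map_mul, hz, zero_mul]
  rw [← QuadraticAlgebra.algebraMap_norm_eq_mul_star] at h1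
  have h2 : (algebraMap ℤ E (QuadraticAlgebra.norm z)) = ((QuadraticAlgebra.norm z : ℤ) : E) := rfl
  rw [h2, map_intCast] at h1
  have h3 : QuadraticAlgebra.norm z = 0 := by exact_mod_cast h1
  apply h
  rw [← nm_eq_zero, nm, h3]
  rfl

theorem absNorm_om (d : Dat L) (a : E) : Ideal.absNorm (Ideal.span {d.om a}) = nm a ^ 2 := by
  let _ : Algebra E (𝓞 L) := d.om.toAlgebra
  have hst : IsScalarTower ℤ E (𝓞 L) := inferInstance
  have hfin : Module.Finite E (𝓞 L) := Module.Finite.of_restrictScalars_finite ℤ E (𝓞 L)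
  have htf : Module.IsTorsionFree E (𝓞 L) :=
    Module.isTorsionFree_iff_algebraMap_injective.mpr (om_inj d)
  have hfree : Module.Free E (𝓞 L) := inferInstance
  have hrank : Module.finrank E (𝓞 L) = 2 := by
    have h1 := Module.finrank_mul_finrank ℤ E (𝓞 L)
    rw [QuadraticAlgebra.finrank_eq_two, RingOfIntegers.rank, d.deg] at h1
    omega
  rw [Ideal.absNorm_span_singleton]
  have h2 : Algebra.norm ℤ (d.om a) = Algebra.norm ℤ (Algebra.norm E (d.om a)) :=
    (Algebra.norm_norm (R := ℤ) (S := E)).symm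
  have h3 : Algebra.norm E (d.om a) = a ^ 2 := by
    have := Algebra.norm_algebraMap (R := E) (S := 𝓞 L) a
    rw [hrank] at this
    exact this
  rw [h2, h3, map_pow, algNorm, Int.natAbs_pow]
  rfl

lemma sg_om (d : Dat L) (z : E) : d.sg (d.om z) = d.om z := by
  apply RingOfIntegers.ext
  exact d.σo z

lemma sg_s (d : Dat L) : d.sg d.s = -d.s := by
  apply RingOfIntegers.ext
  exact d.σs

lemma sg_sg (d : Dat L) (x : 𝓞 L) : d.sg (d.sg x) = x := by
  apply RingOfIntegers.ext
  exact d.σσ x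

/-- the invariant integers -/
lemma inv_mem (d : Dat L) (x : 𝓞 L) (hx : d.sg x = x) : ∃ e : E, d.om e = x := by
  obtain ⟨u, v, w, hw, h⟩ := d.gen (x : L)
  have h1 : d.om w * x = d.om u + d.om v * d.s := RingOfIntegers.ext h
  have h2 : d.om w * x = d.om u + d.om v * (-d.s) := by
    have := congrArg d.sg h1
    rwa [map_mul, map_add, map_mul, sg_om, sg_om, sg_om, sg_s, hx] at this
  have h3 : d.om v * d.s = 0 := by
    have h4 : 2 * (d.om v * d.s) = 0 := by linear_combination h2 - h1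
    rcases mul_eq_zero.mp h4 with h5 | h5
    · exact absurd h5 two_ne_zero
    · exact h5
  rw [h3, add_zero] at h1
  -- integral closure
  let g : E →+* L := (algebraMap (𝓞 L) L).comp d.om
  have hg : Function.Injective g := by
    intro a b hab
    exact om_inj d (RingOfIntegers.coe_injective hab)
  let ι : FractionRing E →+* L := IsFractionRing.lift hg
  have hι : ∀ a : E, ι (algebraMap E (FractionRing E) a) = g a := fun a =>
    IsFractionRing.lift_algebraMap hg a
  let r : FractionRing E := algebraMap E _ u / algebraMap E _ w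
  have hwne : g w ≠ 0 := by
    rw [← map_zero g]
    exact hg.ne hw
  have hr : ι r = (x : L) := by
    have h4 : g w * (x : L) = g u := by
      have := congrArg (algebraMap (𝓞 L) L) h1
      rw [map_mul] at this
      exact this
    rw [map_div₀, hι, hι, ← h4]
    field_simp
  have hint2 : IsIntegral E r := by
    obtain ⟨P, hP, hPe⟩ := RingOfIntegers.isIntegral_coe x
    refine ⟨P.map (Int.castRingHom E), hP.map _, ?_⟩
    rw [Polynomial.eval₂_map]
    apply ι.injective
    rw [map_zero, Polynomial.hom_eval₂, hr]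
    have h6 : ι.comp ((algebraMap E (FractionRing E)).comp (Int.castRingHom E)) = algebraMap ℤ L :=
      RingHom.ext_int _ _
    rw [h6]
    exact hPe
  obtain ⟨e, he⟩ := IsIntegrallyClosed.isIntegral_iff.mp hint2
  refine ⟨e, ?_⟩
  apply RingOfIntegers.ext
  rw [← hr, ← he, hι]
  rfl

lemma absNorm_map_sg (d : Dat L) (𝔞 : Ideal (𝓞 L)) :
    Ideal.absNorm (𝔞.map (d.sg : 𝓞 L →+* 𝓞 L)) = Ideal.absNorm 𝔞 := by
  rw [Ideal.absNorm_apply, Ideal.absNorm_apply, Submodule.cardQuot_apply, Submodule.cardQuot_apply]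
  exact (Nat.card_congr (Ideal.quotientEquiv 𝔞 (𝔞.map (d.sg : 𝓞 L →+* 𝓞 L)) d.sg rfl).toEquiv).symm

theorem t_NRM : S_NRM := by
  intro L _ _ d 𝔞 h𝔞
  let C : Set E := {c | ∃ x ∈ 𝔞, d.om c = x * d.sg x}
  obtain ⟨a, ha⟩ : ∃ a : E, Ideal.span C = Ideal.span {a} :=
    (IsPrincipalIdealRing.principal (Ideal.span C)).principal
  set J : Ideal (𝓞 L) := Ideal.span (d.om '' C) with hJ
  have hJa : J = Ideal.span {d.om a} := by
    rw [hJ, ← Ideal.map_span, ha, Ideal.map_span, Set.image_singleton]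
  -- norms of elements of `𝔞` are in `J`
  have hN : ∀ x ∈ 𝔞, x * d.sg x ∈ J := by
    intro x hx
    obtain ⟨c, hc⟩ := inv_mem d (x * d.sg x) (by rw [map_mul, sg_sg, mul_comm])
    rw [← hc]
    exact Ideal.subset_span ⟨c, ⟨x, hx, hc⟩, rfl⟩
  have hsg : ∀ y ∈ 𝔞, d.sg y ∈ 𝔞.map (d.sg : 𝓞 L →+* 𝓞 L) := fun y hy =>
    Ideal.mem_map_of_mem (d.sg : 𝓞 L →+* 𝓞 L) hy
  have hJne : J ≠ ⊥ := by
    obtain ⟨x, hx, hx0⟩ := Submodule.exists_mem_ne_zero_of_ne_bot h𝔞
    intro h
    have h1 := hN x hx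
    rw [h, Ideal.mem_bot] at h1
    rcases mul_eq_zero.mp h1 with h2 | h2
    · exact hx0 h2
    · exact hx0 ((map_eq_zero_iff _ d.sg.injective).mp h2)
  have hmain : 𝔞 * 𝔞.map (d.sg : 𝓞 L →+* 𝓞 L) = J := by
    apply le_antisymm
    · rw [Ideal.mul_le]
      intro x hx z hz
      obtain ⟨y, hy, rfl⟩ := (Ideal.mem_map_iff_of_surjective (d.sg : 𝓞 L →+* 𝓞 L)
        d.sg.surjective).mp hz
      change x * d.sg y ∈ J
      obtain ⟨t, ht⟩ : ∃ t, t = x * d.sg y := ⟨_, rfl⟩
      obtain ⟨t', ht'⟩ : ∃ t', t' = y * d.sg x := ⟨_, rfl⟩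
      rw [← ht]
      have hs : t + t' ∈ J := by
        have h1 := hN (x + y) (𝔞.add_mem hx hy)
        have h2 := J.sub_mem (J.sub_mem h1 (hN x hx)) (hN y hy)
        have h3 : (x + y) * d.sg (x + y) - x * d.sg x - y * d.sg y = t + t' := by
          rw [map_add, ht, ht']; ring
        rwa [h3] at h2
      have hp : t * t' = (x * d.sg x) * (y * d.sg y) := by rw [ht, ht']; ring
      set I : Ideal (𝓞 L) := Ideal.span {t} ⊔ J with hI
      have htI : t ∈ I := Ideal.mem_sup_left (Ideal.mem_span_singleton_self t)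
      have hJI : J ≤ I := le_sup_right
      have hIne : I ≠ ⊥ := by
        intro h
        rw [h] at hJI
        exact hJne (le_bot_iff.mp hJI)
      have htt : t * t ∈ J * I := by
        have h2 : t * t = (t + t') * t - (x * d.sg x) * (y * d.sg y) := by rw [← hp]; ring
        rw [h2]
        exact (J * I).sub_mem (Ideal.mul_mem_mul hs htI)
          (Ideal.mul_mem_mul (hN x hx) (hJI (hN y hy)))
      have hle : I * I ≤ J * I := by
        rw [Ideal.mul_le]
        intro p hpI q hqI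
        obtain ⟨p1, hp1, p2, hp2, rfl⟩ := Submodule.mem_sup.mp hpI
        obtain ⟨c, rfl⟩ := Ideal.mem_span_singleton'.mp hp1
        obtain ⟨q1, hq1, q2, hq2, rfl⟩ := Submodule.mem_sup.mp hqI
        obtain ⟨e, rfl⟩ := Ideal.mem_span_singleton'.mp hq1
        have h3 : (c * t + p2) * (e * t + q2) = (c * e) * (t * t) + p2 * (e * t + q2) +
            q2 * (c * t) := by ring
        rw [h3]
        refine (J * I).add_mem ((J * I).add_mem ((J * I).mul_mem_left _ htt)
          (Ideal.mul_mem_mul hp2 hqI)) (Ideal.mul_mem_mul hq2 (I.mul_mem_left _ htI))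
      have hdvd : J * I ∣ I * I := Ideal.dvd_iff_le.mpr hle
      have hdvd2 : J ∣ I := (mul_dvd_mul_iff_right hIne).mp hdvd
      exact Ideal.dvd_iff_le.mp hdvd2 htI
    · rw [hJ, Ideal.span_le]
      rintro _ ⟨c, ⟨x, hx, hc⟩, rfl⟩
      rw [hc]
      exact Ideal.mul_mem_mul hx (hsg x hx)
  have hn : nm a = Ideal.absNorm 𝔞 := by
    have h1 := congrArg Ideal.absNorm hmain
    rw [map_mul, absNorm_map_sg, hJa, absNorm_om, ← pow_two] at h1
    exact (Nat.pow_left_injective two_ne_zero h1).symm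
  refine ⟨a, ?_, hn, by rw [hmain, hJa]⟩
  rintro rfl
  rw [nm_zero] at hn
  exact (Ideal.absNorm_ne_zero_iff_mem_nonZeroDivisors.mpr (mem_nonZeroDivisors_iff_ne_zero.mpr h𝔞))
    hn.symm

end Pool.Agent.K1H45.Q3
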